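import Pool.Agent.PQP.StmtsC

/-!
# Squad PQP: the row IDE
-/

set_option autoImplicit false

open scoped InnerProductSpace Topology ContDiff Manifold
open MeasureTheory Filter Set

noncomputable section

namespace Pool.Agent.PQP.H75

open Pool.Agent.PQP Pool.Agent.Helper42_Paneitz Pool.Agent.Helper82_Vir Pool.Agent.FLX

theorem one_sub_pos {x y : S4} (h : y ≠ x) : 0 < 1 - ⟪(x : E5), (y : E5)⟫_ℝ := by
  have h1 := dist_sq x y
  have h2 : 0 < dist y x := dist_pos.2 h
  have h3 : 0 < dist y x ^ 2 := by positivity
  linarith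

/-- transfer of integrability through a change of variables -/
theorem integrable_tau {T : S4 → S4} {J : S4 → ℝ} (hJ : Continuous J)
    (hcv : ∀ g : S4 → ℝ, ∫ y, g (T y) * J y ^ 4 ∂sig = ∫ y, g y ∂sig) {g : S4 → ℝ}
    (hg : Integrable g sig) : Integrable (fun y => g (T y) * J y ^ 4) sig := by
  have hJ4 : Integrable (fun y => J y ^ 4) sig := integrable_cont (hJ.pow 4)
  have key : ∀ g : S4 → ℝ, Integrable g sig → (∀ y, 0 ≤ g y) →
      Integrable (fun y => g (T y) * J y ^ 4) sig := by
    intro g hg h0
    have h1 : Integrable (fun y => (g (T y) + 1) * J y ^ 4) sig := by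
      by_contra hc
      have h2 := hcv (fun y => g y + 1)
      rw [integral_undef hc] at h2
      have i1 : Integrable (fun _ : S4 => (1 : ℝ)) sig := integrable_cont continuous_const
      rw [integral_add hg i1, integral_const_sig] at h2
      have h3 : 0 ≤ ∫ y, g y ∂sig := integral_nonneg h0
      have := msig_pos
      linarith
    have h2 := h1.sub hJ4
    refine h2.congr (Eventually.of_forall fun y => ?_)
    simp only [Pi.sub_apply]
    ring
  have hp := key (fun y => max (g y) 0) hg.pos_part (fun y => le_max_right _ _)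
  have hn := key (fun y => max (- g y) 0) hg.neg_part (fun y => le_max_right _ _)
  refine (hp.sub hn).congr (Eventually.of_forall fun y => ?_)
  simp only [Pi.sub_apply]
  have h : max (g (T y)) 0 - max (-g (T y)) 0 = g (T y) := max_zero_sub_max_neg_zero_eq_self _
  rw [← sub_mul, h]

theorem ide (tau_ : TauStmt) (ker : KerStmt) : IdeStmt := by
  intro f e s hf hs1 hs2 x hx
  obtain ⟨⟨hfc, hfp, hfi⟩, A, hA, hAf⟩ := hf
  obtain ⟨t1, t2, t3, t4, t5, t6, _, t8⟩ := tau_ e s hs1 hs2
  have hs : 0 < 1 - s ^ 2 := by nlinarith
  -- continuity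
  have hT : Continuous (tau e s) := by
    have h1 : ContinuousOn (fun y : S4 => tau e s y) univ :=
      t8.comp (f := fun y : S4 => ((s, y) : ℝ × S4)) (by fun_prop)
        (fun y _ => ⟨⟨hs1, hs2⟩, mem_univ _⟩)
    exact continuousOn_univ.1 h1
  have hin : Continuous fun y : S4 => ⟪(e : E5), (y : E5)⟫_ℝ := by fun_prop
  have hJ : Continuous (capJ e s) := by
    unfold capJ
    refine Continuous.div continuous_const (by fun_prop) (fun y => (t1 y).1.ne')
  have hJp : ∀ y, 0 < capJ e s y := fun y => (t1 y).2.1
  set T := tau e s with hTdef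
  set J := capJ e s with hJdef
  set F := ftau e s f with hFdef
  have hFx : ∀ y, F y = f (T y) * J y ^ 4 := fun y => rfl
  have hFc : Continuous F := by
    have : F = fun y => f (T y) * J y ^ 4 := rfl
    rw [this]
    exact (hfc.comp hT).mul (hJ.pow 4)
  have hL : Continuous fun y => Real.log (J y) := hJ.log fun y => (hJp y).ne'
  have hFi : ∫ y, F y ∂sig = 1 := by
    exact (t6 f).trans hfi
  -- the values of `F` and `J` at the reflected points
  have hFT : ∀ z, F (T z) * J z ^ 4 = f z := by
    intro z
    rw [hFx, (t4 z).1, mul_assoc, ← mul_pow, (t4 z).2, one_pow, mul_one]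
  have hLT : ∀ z, Real.log (J (T z)) = - Real.log (J z) := by
    intro z
    have h := (t4 z).2
    have h1 := Real.log_mul (hJp (T z)).ne' (hJp z).ne'
    rw [h, Real.log_one] at h1
    linarith
  -- the logarithms
  have hlog : ∀ y, Real.log (f y) = Real.log A + 4 * pot f y := by
    intro y
    have h := hAf y
    simp only [mul_one] at h
    rw [h, Real.log_mul hA.ne' (Real.exp_pos _).ne', Real.log_exp]
  have hlogF : Real.log (F x) = Real.log A + 4 * pot f (T x) + 4 * Real.log (J x) := by
    rw [hFx, Real.log_mul (hfp _).ne' (pow_pos (hJp x) 4).ne', hlog, Real.log_pow]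
    norm_num
  -- integrability
  have iell : Integrable (ell x) sig := ker.1 x
  have iF : Integrable (fun z => ell x z * F z) sig := integrable_ell_mul iell hFc
  have if_ : Integrable (fun z => ell x z * f z) sig := integrable_ell_mul iell hfc
  have iLF : Integrable (fun z => Real.log (J z) * F z) sig := integrable_cont (hL.mul hFc)
  have iFF : Integrable F sig := integrable_cont hFc
  -- the potential at the reflected point
  have hpot : pot f (T x) = (∫ z, ell x z * F z ∂sig) - Real.log (J x) -
      ∫ z, Real.log (J z) * F z ∂sig := by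
    have h1 : pot f (T x) = ∫ z, (ell x z * F z - Real.log (J x) * F z - Real.log (J z) * F z) ∂sig := by
      unfold pot
      rw [← t6 (fun y => ell (T x) y * f y)]
      refine integral_congr_ae ?_
      filter_upwards [ae_ne x] with z hz
      have h0 := one_sub_pos hz
      have h1 : ell (T x) (T z) = ell x z - Real.log (J x) - Real.log (J z) := by
        unfold ell
        rw [t3 x z, Real.log_mul (mul_pos h0 (hJp x)).ne' (hJp z).ne',
          Real.log_mul h0.ne' (hJp x).ne']
        ring
      simp only [h1, hFx]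
      ring
    have i1 : Integrable (fun z => Real.log (J x) * F z) sig := iFF.const_mul _
    have i2 : Integrable (fun z => ell x z * F z - Real.log (J x) * F z) sig := iF.sub i1
    rw [h1, integral_sub i2 iLF, integral_sub iF i1, integral_const_mul, hFi, mul_one]
  -- the integrand
  set h1 : S4 → ℝ := fun y => ell x y * (f y - F y) + Real.log (J y) * F y with hh1
  have ih1 : Integrable h1 sig := by
    have : h1 = fun y => ell x y * f y - ell x y * F y + Real.log (J y) * F y := by
      funext y; simp only [hh1]; ring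
    rw [this]
    exact (if_.sub iF).add iLF
  have hint : ∫ y, h1 y ∂sig = pot f x - pot f (T x) - Real.log (J x) := by
    have h2 : ∫ y, h1 y ∂sig =
        ∫ y, (ell x y * f y - ell x y * F y + Real.log (J y) * F y) ∂sig :=
      integral_congr_ae (Eventually.of_forall fun y => by simp only [hh1]; ring)
    have i2 : Integrable (fun z => ell x z * f z - ell x z * F z) sig := if_.sub iF
    rw [h2, integral_add i2 iLF, integral_sub if_ iF, hpot]
    unfold pot
    ring
  have hCm : MeasurableSet (hcap e s) := (isClosed_le continuous_const hin).measurableSet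
  -- the change of variables
  set g : S4 → ℝ := (hcap e s)ᶜ.indicator h1 with hg
  have ig : Integrable g sig := ih1.indicator hCm.compl
  have igT : Integrable (fun y => g (T y) * J y ^ 4) sig := integrable_tau hJ t6 ig
  have icap : Integrable ((hcap e s).indicator h1) sig := ih1.indicator hCm
  have hsum : ∫ y, h1 y ∂sig = ∫ y, ((hcap e s).indicator h1 y + g (T y) * J y ^ 4) ∂sig := by
    rw [integral_add icap igT, t6 g, integral_indicator hCm, hg, integral_indicator hCm.compl]
    exact (integral_add_compl hCm ih1).symm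
  -- pointwise identity
  have hpt : ∀ᵐ z ∂sig, (hcap e s).indicator h1 z + g (T z) * J z ^ 4 =
      (hcap e s).indicator (fun y => capG e s x y * (f y - F y)) z := by
    filter_upwards [ae_ne x] with z hz
    have h0 := one_sub_pos hz
    have hN := (t1 z).1
    have ht2 := t2 z
    have hdiff : ⟪(e : E5), (T z : E5)⟫_ℝ - s =
        -((1 - s ^ 2) * (⟪(e : E5), (z : E5)⟫_ℝ - s)) / (1 + s ^ 2 - 2 * s * ⟪(e : E5), (z : E5)⟫_ℝ) := by
      rw [ht2]
      field_simp
      ring
    rcases lt_trichotomy ⟪(e : E5), (z : E5)⟫_ℝ s with hlt | heq | hgt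
    · have hz1 : z ∉ hcap e s := fun h => absurd h (not_le.2 hlt)
      have hz2 : T z ∈ hcap e s := by
        have : 0 < ⟪(e : E5), (T z : E5)⟫_ℝ - s := by
          rw [hdiff]
          refine div_pos ?_ hN
          nlinarith
        show s ≤ ⟪(e : E5), (T z : E5)⟫_ℝ
        linarith
      rw [indicator_of_notMem hz1, indicator_of_notMem hz1, hg,
        indicator_of_notMem (show ¬ (T z ∈ (hcap e s)ᶜ) from fun h => h hz2)]
      ring
    · have hz1 : z ∈ hcap e s := le_of_eq heq.symm
      have hz2 : T z ∈ hcap e s := by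
        have : ⟪(e : E5), (T z : E5)⟫_ℝ - s = 0 := by
          rw [hdiff, heq]
          simp
        show s ≤ ⟪(e : E5), (T z : E5)⟫_ℝ
        linarith
      have hJ1 : J z = 1 := by
        rw [hJdef]
        unfold capJ
        rw [heq]
        have : 1 + s ^ 2 - 2 * s * s = 1 - s ^ 2 := by ring
        rw [this, div_self hs.ne']
      have hTz : T z = z := by
        apply Subtype.ext
        rw [(t1 z).2.2]
        unfold tauE
        rw [heq, sub_self, mul_zero, zero_smul, sub_zero, smul_smul]
        have : 1 + s ^ 2 - 2 * s * s = 1 - s ^ 2 := by ring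
        rw [this, inv_mul_cancel₀ hs.ne', one_smul]
      have hFz : F z = f z := by rw [hFx, hTz, hJ1]; ring
      rw [indicator_of_mem hz1, indicator_of_mem hz1, hg,
        indicator_of_notMem (show ¬ (T z ∈ (hcap e s)ᶜ) from fun h => h hz2)]
      simp only [hh1, hFz, hJ1, Real.log_one]
      ring
    · have hz1 : z ∈ hcap e s := hgt.le
      have hz2 : T z ∉ hcap e s := by
        have : ⟪(e : E5), (T z : E5)⟫_ℝ - s < 0 := by
          rw [hdiff]
          refine div_neg_of_neg_of_pos ?_ hN
          nlinarith
        intro h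
        have h' : s ≤ ⟪(e : E5), (T z : E5)⟫_ℝ := h
        linarith
      rw [indicator_of_mem hz1, indicator_of_mem hz1, hg,
        indicator_of_mem (show T z ∈ (hcap e s)ᶜ from hz2)]
      have hGG : capG e s x z = ell x z - ell x (T z) - Real.log (J z) := by
        have hxs : s ≤ ⟪(e : E5), (x : E5)⟫_ℝ := hx
        have h5 := t5 x z
        have hu : 0 ≤ 2 * (⟪(e : E5), (x : E5)⟫_ℝ - s) * (⟪(e : E5), (z : E5)⟫_ℝ - s) /
            ((1 - s ^ 2) * (1 - ⟪(x : E5), (z : E5)⟫_ℝ)) := by
          refine div_nonneg (mul_nonneg (by linarith) (by linarith)) (mul_pos hs h0).le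
        have h6 : 1 - ⟪(x : E5), (T z : E5)⟫_ℝ = J z * ((1 - ⟪(x : E5), (z : E5)⟫_ℝ) *
            (1 + 2 * (⟪(e : E5), (x : E5)⟫_ℝ - s) * (⟪(e : E5), (z : E5)⟫_ℝ - s) /
            ((1 - s ^ 2) * (1 - ⟪(x : E5), (z : E5)⟫_ℝ)))) := by
          rw [h5]
          field_simp
        have h7 : 0 < 1 + 2 * (⟪(e : E5), (x : E5)⟫_ℝ - s) * (⟪(e : E5), (z : E5)⟫_ℝ - s) /
            ((1 - s ^ 2) * (1 - ⟪(x : E5), (z : E5)⟫_ℝ)) := by linarith
        unfold ell capG
        rw [h6, Real.log_mul (hJp z).ne' (mul_pos h0 h7).ne', Real.log_mul h0.ne' h7.ne']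
        ring
      have e1 : h1 (T z) * J z ^ 4 = ell x (T z) * (F z - f z) - Real.log (J z) * f z := by
        simp only [hh1]
        rw [hLT]
        have a1 := hFT z
        have a2 := hFx z
        calc (ell x (T z) * (f (T z) - F (T z)) + -Real.log (J z) * F (T z)) * J z ^ 4
            = ell x (T z) * (f (T z) * J z ^ 4 - F (T z) * J z ^ 4) -
              Real.log (J z) * (F (T z) * J z ^ 4) := by ring
          _ = _ := by rw [a1, ← a2]
      rw [e1, hGG]
      simp only [hh1]
      ring
  have hfin : Integrable ((hcap e s).indicator (fun y => capG e s x y * (f y - F y))) sig :=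
    (icap.add igT).congr hpt
  refine ⟨(integrable_indicator_iff hCm).1 hfin, ?_⟩
  rw [hlog, hlogF, ← integral_indicator hCm, ← integral_congr_ae hpt, ← hsum, hint]
  ring

end Pool.Agent.PQP.H75
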