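import Pool.Agent.PQP.StmtsZ

/-!
# Squad PQP: the row LHM
-/

set_option autoImplicit false

open scoped InnerProductSpace Topology ContDiff Manifold
open MeasureTheory Filter Set

noncomputable section

namespace Pool.Agent.PQP.H75

open Pool.Agent.PQP Pool.Agent.Helper42_Paneitz Pool.Agent.Helper82_Vir Pool.Agent.FLX

theorem lhm (mos : MosStmt) (rtw : RtwStmt) : LhmStmt := by
  intro P ψ hψ hcrit
  obtain ⟨c, C₀, hc, hr⟩ := rtw
  obtain ⟨C, hC, hE⟩ := hr ψ hψ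
  have hgc : Continuous (gd ψ) := (smV_gd hψ).continuous
  have hLc : Continuous (sphLaplacian ψ) := continuous_of_sm hψ.sphLaplacian
  have hK : IsCompact {w : S4 | (w : E5) ∈ P} :=
    (P.closed_of_finiteDimensional.preimage continuous_subtype_val).isCompact
  obtain ⟨δ, hδ, hδm⟩ : ∃ δ : ℝ, 0 < δ ∧ ∀ w : S4, (w : E5) ∈ P →
      δ ≤ max |sphLaplacian ψ w| ‖gd ψ w‖ := by
    rcases {w : S4 | (w : E5) ∈ P}.eq_empty_or_nonempty with h | h
    · refine ⟨1, one_pos, fun w hw => ?_⟩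
      have h1 : w ∈ {w : S4 | (w : E5) ∈ P} := hw
      rw [h] at h1
      exact absurd h1 (Set.notMem_empty w)
    · obtain ⟨w₀, hw₀, hmin⟩ := hK.exists_isMinOn h
        (f := fun w => max |sphLaplacian ψ w| ‖gd ψ w‖) (hLc.abs.max hgc.norm).continuousOn
      refine ⟨max |sphLaplacian ψ w₀| ‖gd ψ w₀‖, ?_, fun w hw => hmin hw⟩
      by_cases hg : gd ψ w₀ = 0
      · have h1 : Crit ψ w₀ := fun v => by rw [← inner_gd, hg, inner_zero_right]
        exact lt_max_of_lt_left (abs_pos.2 (hcrit w₀ hw₀ h1))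
      · exact lt_max_of_lt_right (norm_pos_iff.2 hg)
  -- the choice of the radius
  obtain ⟨τ, hτ0, hτ1, hτC⟩ : ∃ τ : ℝ, 0 < τ ∧ τ ≤ 1 / 2 ∧ C * τ ≤ c * δ / 2 := by
    refine ⟨min (1 / 2) (c * δ / (2 * (C + 1))), by positivity, min_le_left _ _, ?_⟩
    calc C * min (1 / 2) (c * δ / (2 * (C + 1))) ≤ (C + 1) * (c * δ / (2 * (C + 1))) := by
          refine mul_le_mul (by linarith) (min_le_right _ _) (by positivity) (by positivity)
      _ = c * δ / 2 := by field_simp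
  refine ⟨max (1 / 2) (√(1 - τ ^ 2)), ?_, ?_⟩
  · refine max_lt (by norm_num) ?_
    rw [Real.sqrt_lt' one_pos]
    nlinarith
  intro ρ hρ1 hρ
  have hρh : 1 / 2 ≤ ρ := (le_max_left _ _).trans hρ1
  have hρτ : √(1 - τ ^ 2) ≤ ρ := (le_max_right _ _).trans hρ1
  obtain ⟨σ, hσ⟩ : ∃ σ, σ = √(1 - ρ ^ 2) := ⟨_, rfl⟩
  have hρ2 : 0 < 1 - ρ ^ 2 := by nlinarith
  have hσ0 : 0 < σ := by rw [hσ]; exact Real.sqrt_pos.2 hρ2
  have hσ2 : σ ^ 2 = 1 - ρ ^ 2 := by rw [hσ]; exact Real.sq_sqrt hρ2.le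
  have hστ : σ ≤ τ := by
    have h1 : 1 - τ ^ 2 ≤ ρ ^ 2 := (Real.sqrt_le_left (by linarith)).1 hρτ
    have h2 : σ ^ 2 ≤ τ ^ 2 := by rw [hσ2]; linarith
    exact le_of_sq_le_sq h2 hτ0.le
  have hCσ : C * σ ≤ c * δ / 2 := (mul_le_mul_of_nonneg_left hστ hC).trans hτC
  have hσ1 : σ ≤ 1 := by linarith
  refine ⟨min (σ ^ 2 * (c * δ / 2)) δ, by positivity, ?_⟩
  intro w s hw hs0 hs1
  obtain ⟨j, g, hj, _, hg, _, hR, hT⟩ := hE w ρ hρh hρ
  rw [← hσ] at hR hT
  rw [← hσ2] at hR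
  have hb : ‖ρ • (w : E5)‖ < 1 := by
    rw [norm_smul, S4_norm, mul_one, Real.norm_eq_abs, abs_of_pos (by linarith)]
    exact hρ
  have hψm : Continuous fun y : S4 => ψ (mob (ρ • (w : E5)) y) :=
    continuous_of_sm (mos.2 _ hb ψ hψ)
  have hin : ∀ e : E5, ⟪e, mo ψ (ρ • (w : E5))⟫_ℝ =
      ∫ y : S4, ψ (mob (ρ • (w : E5)) y) * ⟪e, (y : E5)⟫_ℝ ∂sig := by
    intro e
    have hi : Integrable (fun y : S4 => ψ (mob (ρ • (w : E5)) y) • (y : E5)) sig := by
      have hcc : Continuous fun y : S4 => ψ (mob (ρ • (w : E5)) y) • (y : E5) :=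
        hψm.smul continuous_subtype_val
      exact hcc.integrable_of_hasCompactSupport (HasCompactSupport.of_compactSpace _)
    unfold mo
    rw [← integral_inner hi e]
    refine integral_congr_ae (Eventually.of_forall fun y => ?_)
    simp only [inner_smul_right]
  -- the size of the vector
  set V : E5 := (1 - s) • mo ψ (ρ • (w : E5)) + s • mw ψ w with hV
  have hwg : ⟪(w : E5), gd ψ w⟫_ℝ = 0 := by rw [inner_gd, dd_self hψ]
  have hlow : min (σ ^ 2 * (c * δ / 2)) δ ≤ (1 - s) * (σ ^ 2 * (c * δ / 2)) + s * δ := by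
    have h1 := min_le_left (σ ^ 2 * (c * δ / 2)) δ
    have h2 := min_le_right (σ ^ 2 * (c * δ / 2)) δ
    nlinarith
  have hmul : ∀ x y z : ℝ, |x + y| ≤ z → |x| - z ≤ |y| := by
    intro x y z h
    have h1 : |x| ≤ |x + y| + |y| := by
      have := abs_add_le (x + y) (-y)
      rw [add_neg_cancel_right, abs_neg] at this
      exact this
    linarith
  have hk : C * σ ^ 3 ≤ σ ^ 2 * (c * δ / 2) := by
    calc C * σ ^ 3 = σ ^ 2 * (C * σ) := by ring
      _ ≤ _ := mul_le_mul_of_nonneg_left hCσ (sq_nonneg σ)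
  rcases le_max_iff.1 (hδm w hw) with hA | hB
  · -- the radial component
    have h1 : |⟪(w : E5), V⟫_ℝ| ≤ ‖V‖ := by
      have := abs_real_inner_le_norm (w : E5) V
      rwa [S4_norm, one_mul] at this
    refine hlow.trans (le_trans ?_ h1)
    have h2 : ⟪(w : E5), V⟫_ℝ =
        (1 - s) * (∫ y : S4, ψ (mob (ρ • (w : E5)) y) * ⟪(w : E5), (y : E5)⟫_ℝ ∂sig) -
          s * sphLaplacian ψ w := by
      rw [hV, inner_add_right, inner_smul_right, inner_smul_right, hin]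
      unfold mw
      rw [inner_add_right, inner_smul_right, hwg, real_inner_self_eq_norm_sq, S4_norm]
      ring
    set R := ∫ y : S4, ψ (mob (ρ • (w : E5)) y) * ⟪(w : E5), (y : E5)⟫_ℝ ∂sig with hRdef
    set L := sphLaplacian ψ w with hLdef
    have h3 : |(-(((1 - s) * (j * σ ^ 2) + s) * L)) - ⟪(w : E5), V⟫_ℝ| ≤ (1 - s) * (C * σ ^ 3) := by
      have e1 : (-(((1 - s) * (j * σ ^ 2) + s) * L)) - ⟪(w : E5), V⟫_ℝ =
          -((1 - s) * (R + j * σ ^ 2 * L)) := by rw [h2]; ring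
      rw [e1, abs_neg, abs_mul, abs_of_nonneg (by linarith : (0 : ℝ) ≤ 1 - s)]
      exact mul_le_mul_of_nonneg_left hR (by linarith)
    rw [sub_eq_add_neg] at h3
    have h4 := hmul _ _ _ h3
    rw [abs_neg, abs_neg] at h4
    refine le_trans ?_ h4
    have hjs : 0 ≤ (1 - s) * (j * σ ^ 2) + s := by
      have : 0 ≤ (1 - s) * (j * σ ^ 2) :=
        mul_nonneg (by linarith) (mul_nonneg (hc.le.trans hj) (sq_nonneg σ))
      linarith
    rw [abs_mul, abs_of_nonneg hjs]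
    have h5 : (1 - s) * (c * σ ^ 2) + s ≤ (1 - s) * (j * σ ^ 2) + s := by
      have : (1 - s) * (c * σ ^ 2) ≤ (1 - s) * (j * σ ^ 2) :=
        mul_le_mul_of_nonneg_left (mul_le_mul_of_nonneg_right hj (sq_nonneg σ)) (by linarith)
      linarith
    have h6 : ((1 - s) * (c * σ ^ 2) + s) * δ ≤ ((1 - s) * (j * σ ^ 2) + s) * |L| :=
      mul_le_mul h5 hA hδ.le hjs
    have h7 : (1 - s) * (C * σ ^ 3) ≤ (1 - s) * (σ ^ 2 * (c * δ / 2)) :=
      mul_le_mul_of_nonneg_left hk (by linarith)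
    have e2 : ((1 - s) * (c * σ ^ 2) + s) * δ =
        2 * ((1 - s) * (σ ^ 2 * (c * δ / 2))) + s * δ := by ring
    linarith
  · -- the tangential component
    have hgp : 0 < ‖gd ψ w‖ := lt_of_lt_of_le hδ hB
    obtain ⟨e, he⟩ : ∃ e : E5, e = ‖gd ψ w‖⁻¹ • gd ψ w := ⟨_, rfl⟩
    have hen : ‖e‖ = 1 := by
      rw [he, norm_smul, norm_inv, norm_norm, inv_mul_cancel₀ hgp.ne']
    have hwe : ⟪(w : E5), e⟫_ℝ = 0 := by rw [he, inner_smul_right, hwg, mul_zero]
    have hde : dd ψ w e = ‖gd ψ w‖ := by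
      rw [← inner_gd, he, inner_smul_left, real_inner_self_eq_norm_sq]
      simp only [conj_trivial]
      field_simp
    have hT1 := hT e hwe hen.le
    rw [hde] at hT1
    have h1 : |⟪e, V⟫_ℝ| ≤ ‖V‖ := by
      have := abs_real_inner_le_norm e V
      rwa [hen, one_mul] at this
    refine hlow.trans (le_trans ?_ h1)
    have h2 : ⟪e, V⟫_ℝ =
        (1 - s) * (∫ y : S4, ψ (mob (ρ • (w : E5)) y) * ⟪e, (y : E5)⟫_ℝ ∂sig) +
          s * ‖gd ψ w‖ := by
      rw [hV, inner_add_right, inner_smul_right, inner_smul_right, hin]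
      unfold mw
      rw [inner_add_right, inner_smul_right, real_inner_comm, hwe, inner_gd, hde]
      ring
    set R := ∫ y : S4, ψ (mob (ρ • (w : E5)) y) * ⟪e, (y : E5)⟫_ℝ ∂sig with hRdef
    set N := ‖gd ψ w‖ with hNdef
    refine le_trans ?_ (le_abs_self _)
    rw [h2]
    have h3 := (abs_le.1 hT1).1
    have h4 : g * σ * N - C * σ ^ 3 ≤ R := by linarith
    have h5 : σ ^ 2 * (c * δ) ≤ g * σ * N := by
      calc σ ^ 2 * (c * δ) = (σ * σ) * (c * δ) := by ring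
        _ ≤ (σ * 1) * (c * δ) := by
            refine mul_le_mul_of_nonneg_right ?_ (by positivity)
            exact mul_le_mul_of_nonneg_left hσ1 hσ0.le
        _ = (c * σ) * δ := by ring
        _ ≤ (g * σ) * N := mul_le_mul (mul_le_mul_of_nonneg_right hg hσ0.le) hB hδ.le
            (mul_nonneg (hc.le.trans hg) hσ0.le)
    have h6 : σ ^ 2 * (c * δ / 2) ≤ R := by
      have e2 : σ ^ 2 * (c * δ) = 2 * (σ ^ 2 * (c * δ / 2)) := by ring
      linarith
    have h7 : (1 - s) * (σ ^ 2 * (c * δ / 2)) ≤ (1 - s) * R :=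
      mul_le_mul_of_nonneg_left h6 (by linarith)
    have h8 : s * δ ≤ s * N := mul_le_mul_of_nonneg_left hB hs0
    linarith

end Pool.Agent.PQP.H75
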